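import Pool.Agent.Q260.DM.G22

/-! A diameter-maximal 5-regular graph of diameter 4 containing a triangle. -/

namespace Pool.Agent.Results.MP_67c69b_co.EvenTriangle

open Finset Pool.Agent.Q260.DM Pool.Agent.Q260.DM.G22

lemma sqrt5_sq : √(5 : ℝ) ^ 2 = 5 := Real.sq_sqrt (by norm_num)

lemma sqrt5_gt : (2.2 : ℝ) < √5 := by
  rw [Real.lt_sqrt (by norm_num)]
  norm_num

lemma sqrt5_lt : √5 < (2.24 : ℝ) := by
  rw [Real.sqrt_lt' (by norm_num)]
  norm_num

/-- The adjacency operator is symmetric. -/
lemma adj_symm (f g : Fin 22 → ℝ) : ∑ i, f i * (∑ j, if a i j then g j else 0)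
    = ∑ i, (∑ j, if a i j then f j else 0) * g i := by
  have h1 : ∀ i, f i * (∑ j, if a i j then g j else 0) = ∑ j, if a i j then f i * g j else 0 := by
    intro i
    rw [Finset.mul_sum]
    apply Finset.sum_congr rfl
    intro j _
    by_cases h : a i j = true
    · rw [if_pos h, if_pos h]
    · rw [if_neg h, if_neg h, mul_zero]
  have h2 : ∀ i, (∑ j, if a i j then f j else 0) * g i = ∑ j, if a j i then f j * g i else 0 := by
    intro i
    rw [Finset.sum_mul]
    apply Finset.sum_congr rfl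
    intro j _
    rw [hs j i]
    by_cases h : a i j = true
    · rw [if_pos h, if_pos h]
    · rw [if_neg h, if_neg h, zero_mul]
  simp_rw [h1, h2]
  rw [Finset.sum_comm]

lemma castsum (f : Fin 22 → ℤ) (i : Fin 22) : (∑ j, if a i j then (f j : ℝ) else 0)
    = ((∑ j, if a i j then f j else 0 : ℤ) : ℝ) := by
  push_cast
  rfl

lemma form_eq (v : Fin 22 → ℝ) :
    ∑ i, ∑ j, (M i j : ℝ) * (v i * v j) = 2200000 * ∑ i, v i ^ 2
      - 1000000 * ∑ i, v i * (∑ j, if a i j then v j else 0) + 250000 * (∑ i, v i) ^ 2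
      + 5000000 * (∑ i, (e i : ℝ) * v i) ^ 2 + 1000000 * (∑ i, (w i : ℝ) * v i) ^ 2 := by
  have hsq : ∀ f : Fin 22 → ℝ, (∑ i, f i) ^ 2 = ∑ i, ∑ j, f i * f j := by
    intro f
    rw [sq, Finset.sum_mul_sum]
  rw [hsq, hsq, hsq]
  simp_rw [Finset.mul_sum]
  rw [← Finset.sum_sub_distrib, ← Finset.sum_add_distrib, ← Finset.sum_add_distrib,
    ← Finset.sum_add_distrib]
  apply Finset.sum_congr rfl
  intro i _
  have hdiag : 2200000 * v i ^ 2 = ∑ j, if i = j then 2200000 * v i ^ 2 else 0 := by
    rw [Finset.sum_ite_eq Finset.univ i, if_pos (Finset.mem_univ i)]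
  rw [hdiag, ← Finset.sum_sub_distrib, ← Finset.sum_add_distrib, ← Finset.sum_add_distrib,
    ← Finset.sum_add_distrib]
  apply Finset.sum_congr rfl
  intro j _
  unfold M
  by_cases h : a i j = true
  · by_cases hij : i = j
    · subst hij
      simp only [if_pos h, if_true]
      push_cast
      ring
    · simp only [if_pos h, if_neg hij]
      push_cast
      ring
  · by_cases hij : i = j
    · subst hij
      simp only [if_neg h, if_true]
      push_cast
      ring
    · simp only [if_neg h, if_neg hij]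
      push_cast
      ring

lemma eig_bound (v : Fin 22 → ℝ) (x : ℝ) (hv : v ≠ 0)
    (h : ∀ i, (∑ j, if a i j then v j else 0) = x * v i) : x = 5 ∨ x ≤ √5 := by
  have h5 := sqrt5_sq
  have h5' := sqrt5_gt
  have hpair : ∀ f : Fin 22 → ℝ, x * ∑ i, f i * v i
      = ∑ i, (∑ j, if a i j then f j else 0) * v i := by
    intro f
    rw [← adj_symm f v, Finset.mul_sum]
    apply Finset.sum_congr rfl
    intro i _
    rw [h i]
    ring
  have hs1 := hpair (fun _ => 1)
  have hreg' : ∀ i, (∑ j, if a i j then (1 : ℝ) else 0) = 5 := by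
    intro i
    have := hreg i
    have h2 : ((∑ j, if a i j then 1 else 0 : ℕ) : ℝ) = ((5 : ℕ) : ℝ) := by rw [this]
    push_cast at h2
    exact h2
  have hs2 : (x - 5) * ∑ i, v i = 0 := by
    simp only [hreg', one_mul] at hs1
    rw [← Finset.mul_sum] at hs1
    linarith
  have he := hpair (fun i => (e i : ℝ))
  have hw := hpair (fun i => (w i : ℝ))
  simp only [castsum, hAe] at he
  simp only [castsum, hAw] at hw
  have hw' : x * ∑ i, (w i : ℝ) * v i = 5 * ∑ i, (e i : ℝ) * v i := by
    rw [hw, Finset.mul_sum]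
    apply Finset.sum_congr rfl
    intro i _
    push_cast
    ring
  rcases mul_eq_zero.1 hs2 with h1 | h1
  · left
    linarith
  · right
    by_cases ht : ∑ i, (e i : ℝ) * v i = 0
    · have hu : ∑ i, (w i : ℝ) * v i = 0 := by rw [← he, ht, mul_zero]
      have hpsd := psd_of M L hMs hMdd v
      rw [form_eq, h1, ht, hu] at hpsd
      have hvAv : ∑ i, v i * (∑ j, if a i j then v j else 0) = x * ∑ i, v i ^ 2 := by
        rw [Finset.mul_sum]
        apply Finset.sum_congr rfl
        intro i _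
        rw [h i]
        ring
      rw [hvAv] at hpsd
      have hpos : 0 < ∑ i, v i ^ 2 := by
        obtain ⟨k, hk⟩ : ∃ k, v k ≠ 0 := by
          by_contra hcon
          push Not at hcon
          exact hv (funext hcon)
        exact lt_of_lt_of_le (by positivity)
          (Finset.single_le_sum (f := fun k => v k ^ 2) (fun _ _ => sq_nonneg _)
            (Finset.mem_univ k))
      by_contra hx
      push Not at hx
      nlinarith
    · have h2 : (x ^ 2 - 5) * ∑ i, (e i : ℝ) * v i = 0 := by
        rw [sub_mul, ← hw', ← he]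
        ring
      rcases mul_eq_zero.1 h2 with h3 | h3
      · by_contra hx
        push Not at hx
        nlinarith
      · exact absurd h3 ht

lemma eigvec (i : Fin 22) : (∑ j, if a i j then (√5 * (e j : ℝ) + w j) else 0)
    = √5 * (√5 * (e i : ℝ) + w i) := by
  have h1 := castsum e i
  have h2 := castsum w i
  rw [hAe] at h1
  rw [hAw] at h2
  have h3 : (∑ j, if a i j then (√5 * (e j : ℝ) + w j) else 0)
      = √5 * (∑ j, if a i j then (e j : ℝ) else 0) + (∑ j, if a i j then (w j : ℝ) else 0) := by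
    rw [Finset.mul_sum, ← Finset.sum_add_distrib]
    apply Finset.sum_congr rfl
    intro j _
    by_cases hc : a i j = true
    · rw [if_pos hc, if_pos hc, if_pos hc]
    · rw [if_neg hc, if_neg hc, if_neg hc]
      simp
  rw [h3, h1, h2]
  push_cast
  linear_combination (-(e i : ℝ)) * sqrt5_sq

lemma AC_eq : AC G = 5 - √5 := by
  have h5 := sqrt5_lt
  have h5' := sqrt5_gt
  apply AC_of a hs hi (by norm_num) 5 hreg diam.1 (5 - √5) (by linarith) ?_
    (fun j => √5 * (e j : ℝ) + w j) ?_ ?_
  · intro v x hv h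
    rcases eig_bound v x hv h with h1 | h1
    · left
      rw [h1]
      norm_num
    · right
      push_cast
      linarith
  · intro h
    have := congrFun h 1
    have e1 : e 1 = 0 := by decide +kernel
    have e2 : w 1 = 1 := by decide +kernel
    simp only [e1, e2, Pi.zero_apply] at this
    norm_num at this
  · intro i
    rw [eigvec]
    push_cast
    ring

/-- The solution `θ = arctan √(11/5)`. -/
noncomputable def th : ℝ := Real.arctan √(11 / 5)

lemma tan_th_sq : Real.tan th ^ 2 = 11 / 5 := by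
  unfold th
  rw [Real.tan_arctan, Real.sq_sqrt (by norm_num)]

lemma th_pos : 0 < th := by
  unfold th
  have h : (0 : ℝ) < √(11 / 5) := Real.sqrt_pos.2 (by norm_num)
  have := Real.arctan_strictMono h
  rwa [Real.arctan_zero] at this

lemma th_lt : th < Real.pi / 2 := Real.arctan_lt_pi_div_two _

lemma cos_th : Real.cos th = √5 / 4 := by
  unfold th
  rw [Real.cos_arctan, Real.sq_sqrt (by norm_num)]
  have h16 : (1 : ℝ) + 11 / 5 = (4 / √5) ^ 2 := by
    rw [div_pow, sqrt5_sq]
    norm_num
  rw [h16, Real.sqrt_sq (by positivity)]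
  have : √(5 : ℝ) ≠ 0 := by positivity
  field_simp

/-- On `(0, π/2)` the equation says `tan² θ = 11/5`. -/
lemma sol_iff (θ : ℝ) (h0 : 0 < θ) (h1 : θ < Real.pi / 2) :
    IsSol 5 4 θ ↔ Real.tan θ ^ 2 = 11 / 5 := by
  have hcos : 0 < Real.cos θ := Real.cos_pos_of_mem_Ioo ⟨by linarith, h1⟩
  have htan : 0 < Real.tan θ := Real.tan_pos_of_pos_of_lt_pi_div_two h0 h1
  have hK : (((4 : ℕ) / 2 : ℕ) : ℝ) = 2 := by norm_num
  have hd : ((5 : ℕ) : ℝ) = 5 := by norm_num
  have hodd : ¬ Odd 4 := by decide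
  have hev : Even 4 := by decide
  unfold IsSol
  rw [hK, hd]
  simp only [hodd, hev, false_and, or_false, true_and]
  have hc2 : Real.cos (2 * θ) = Real.cos θ ^ 2 * (1 - Real.tan θ ^ 2) := by
    rw [Real.cos_two_mul, Real.tan_eq_sin_div_cos, div_pow]
    have := Real.sin_sq_add_cos_sq θ
    field_simp
    linarith
  have ht2 : Real.tan (2 * θ) = 2 * Real.tan θ / (1 - Real.tan θ ^ 2) := Real.tan_two_mul
  rw [hc2, ht2]
  constructor
  · rintro ⟨ha, -, hb⟩
    have h3 : 1 - Real.tan θ ^ 2 ≠ 0 := fun h => ha (by rw [h, mul_zero])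
    rw [div_eq_iff h3] at hb
    have h4 : Real.tan θ * (2 + 5 / 3 * (1 - Real.tan θ ^ 2)) = 0 := by
      have : ((5 : ℝ) - 2) = 3 := by norm_num
      rw [this] at hb
      linarith
    rcases mul_eq_zero.1 h4 with h5 | h5
    · exact absurd h5 htan.ne'
    · linarith
  · intro h
    have h3 : 1 - Real.tan θ ^ 2 = -6 / 5 := by rw [h]; norm_num
    rw [h3]
    refine ⟨?_, hcos.ne', ?_⟩
    · apply mul_ne_zero (pow_ne_zero _ hcos.ne')
      norm_num
    · ring

lemma th_least : IsLeast {t : ℝ | 0 < t ∧ IsSol 5 4 t} th := by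
  constructor
  · refine ⟨th_pos, ?_⟩
    rw [sol_iff th th_pos th_lt]
    exact tan_th_sq
  · rintro t ⟨ht0, ht⟩
    by_contra hlt
    push Not at hlt
    have ht2 : t < Real.pi / 2 := hlt.trans th_lt
    rw [sol_iff t ht0 ht2] at ht
    have h1 : Real.tan t < Real.tan th :=
      Real.tan_lt_tan_of_lt_of_lt_pi_div_two (by linarith) th_lt hlt
    have h2 : 0 < Real.tan t := Real.tan_pos_of_pos_of_lt_pi_div_two ht0 ht2
    have h3 := tan_th_sq
    nlinarith

/-- There is a diameter-maximal 5-regular graph of (even) diameter 4 that contains a triangle. -/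
theorem result : ∃ G : SimpleGraph (Fin 22), DiameterMaximal 5 4 G ∧ G.girth = 3 := by
  refine ⟨G, ⟨diam.1, ncard_of a hs hi 5 hreg, diam.2, th, th_least, ?_⟩, ?_⟩
  · rw [AC_eq, cos_th]
    have hd : ((5 : ℕ) : ℝ) - 1 = 2 ^ 2 := by norm_num
    rw [hd, Real.sqrt_sq (by norm_num)]
    push_cast
    ring
  · have hadj : ∀ i j, G.Adj i j ↔ a i j = true := fun i j => Iff.rfl
    exact girth_three G 8 14 18 ((hadj _ _).2 (by decide +kernel))
      ((hadj _ _).2 (by decide +kernel)) ((hadj _ _).2 (by decide +kernel))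

end Pool.Agent.Results.MP_67c69b_co.EvenTriangle
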