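import Pool.Agent.Q260.DM.G34

/-! A diameter-maximal 4-regular graph of diameter 5 and girth 4. -/

namespace Pool.Agent.Results.MP_67c69b_co.OddGirthFour

open Finset Pool.Agent.Q260.DM Pool.Agent.Q260.DM.G34

/-- `μ = (1 + √13) / 2`. -/
noncomputable def mu : ℝ := (1 + √13) / 2

lemma mu_sq : mu ^ 2 = mu + 3 := by
  unfold mu
  have h : √(13 : ℝ) ^ 2 = 13 := Real.sq_sqrt (by norm_num)
  nlinarith

lemma mu_gt : (2.3 : ℝ) < mu := by
  unfold mu
  have h : (3.6 : ℝ) < √13 := by
    rw [Real.lt_sqrt (by norm_num)]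
    norm_num
  linarith

lemma mu_lt : mu < 2.31 := by
  unfold mu
  have h : √13 < (3.62 : ℝ) := by
    rw [Real.sqrt_lt' (by norm_num)]
    norm_num
  linarith

lemma mul_eig {n m : ℕ} (X : Fin n → Fin m → ℤ) (Y : Fin m → Fin n → ℤ) (Z : Fin n → Fin n → ℤ)
    (h : ∀ i k, ∑ l, X i l * Y l k = Z i k) (p r : Fin n → ℝ) (q : Fin m → ℝ) (s t : ℝ)
    (hY : ∀ l, ∑ k, (Y l k : ℝ) * p k = t * q l) (hX : ∀ i, ∑ l, (X i l : ℝ) * q l = s * r i) :
    ∀ i, ∑ k, (Z i k : ℝ) * p k = s * t * r i := by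
  intro i
  calc ∑ k, (Z i k : ℝ) * p k = ∑ k, ∑ l, (X i l : ℝ) * (Y l k * p k) := by
        apply Finset.sum_congr rfl
        intro k _
        rw [← h i k]
        push_cast
        rw [Finset.sum_mul]
        apply Finset.sum_congr rfl
        intro l _
        ring
    _ = ∑ l, (X i l : ℝ) * ∑ k, (Y l k : ℝ) * p k := by
        rw [Finset.sum_comm]
        apply Finset.sum_congr rfl
        intro l _
        rw [Finset.mul_sum]
    _ = t * ∑ l, (X i l : ℝ) * q l := by
        rw [Finset.mul_sum]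
        apply Finset.sum_congr rfl
        intro l _
        rw [hY]
        ring
    _ = s * t * r i := by
        rw [hX]
        ring

lemma eig_bound (v : Fin 34 → ℝ) (x : ℝ) (hv : v ≠ 0)
    (h : ∀ i, (∑ j, if a i j then v j else 0) = x * v i) : x = 4 ∨ x ≤ mu := by
  set p : Fin 17 → ℝ := fun i => v (Fin.castAdd 17 i) with hp
  set q : Fin 17 → ℝ := fun i => v (Fin.natAdd 17 i) with hq
  have hsplit : ∀ f : Fin 34 → ℝ, ∑ j, f j
      = ∑ j : Fin 17, f (Fin.castAdd 17 j) + ∑ j : Fin 17, f (Fin.natAdd 17 j) := fun f =>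
    Fin.sum_univ_add (a := 17) (b := 17) f
  have h1 : ∀ i, ∑ l, (N i l : ℝ) * q l = x * p i := by
    intro i
    have := h (Fin.castAdd 17 i)
    rw [hsplit] at this
    rw [show x * p i = x * v (Fin.castAdd 17 i) from rfl, ← this]
    have h0 : ∑ j : Fin 17, (if a (Fin.castAdd 17 i) (Fin.castAdd 17 j) then
        v (Fin.castAdd 17 j) else 0) = 0 := by
      apply Finset.sum_eq_zero
      intro j _
      rw [if_neg]
      rw [side1]
      exact Bool.false_ne_true
    rw [h0, zero_add]
    apply Finset.sum_congr rfl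
    intro j _
    unfold N
    by_cases hc : a (Fin.castAdd 17 i) (Fin.natAdd 17 j) = true
    · rw [if_pos hc, if_pos hc]
      simp [hq]
    · rw [if_neg hc, if_neg hc]
      simp
  have h2 : ∀ l, ∑ k, (N k l : ℝ) * p k = x * q l := by
    intro i
    have := h (Fin.natAdd 17 i)
    rw [hsplit] at this
    rw [show x * q i = x * v (Fin.natAdd 17 i) from rfl, ← this]
    have h0 : ∑ j : Fin 17, (if a (Fin.natAdd 17 i) (Fin.natAdd 17 j) then
        v (Fin.natAdd 17 j) else 0) = 0 := by
      apply Finset.sum_eq_zero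
      intro j _
      rw [if_neg]
      rw [side2]
      exact Bool.false_ne_true
    rw [h0, add_zero]
    apply Finset.sum_congr rfl
    intro j _
    unfold N
    rw [hs (Fin.natAdd 17 i) (Fin.castAdd 17 j)]
    by_cases hc : a (Fin.castAdd 17 j) (Fin.natAdd 17 i) = true
    · rw [if_pos hc, if_pos hc]
      simp [hp]
    · rw [if_neg hc, if_neg hc]
      simp
  have hBp : ∀ i, ∑ k, (B i k : ℝ) * p k = x ^ 2 * p i := by
    intro i
    have := mul_eig N (fun l k => N k l) B hB p p q x x h2 h1 i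
    rw [this]
    ring
  have hCp : ∀ i, ∑ k, (C i k : ℝ) * p k = x ^ 4 * p i := by
    intro i
    have := mul_eig B B C hC p p p (x ^ 2) (x ^ 2) hBp hBp i
    rw [this]
    ring
  have hone : ∀ i, ∑ k, (one i k : ℝ) * p k = p i := by
    intro i
    rw [Finset.sum_eq_single i]
    · simp [one]
    · intro b _ hb
      simp [one, hb.symm]
    · simp
  have hF1 : ∀ i, ∑ k, ((C i k - 7 * B i k + 9 * one i k : ℤ) : ℝ) * p k
      = (x ^ 4 - 7 * x ^ 2 + 9) * p i := by
    intro i
    have e : ∑ k, ((C i k - 7 * B i k + 9 * one i k : ℤ) : ℝ) * p k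
        = ∑ k, (C i k : ℝ) * p k - 7 * ∑ k, (B i k : ℝ) * p k + 9 * ∑ k, (one i k : ℝ) * p k := by
      rw [Finset.mul_sum, Finset.mul_sum, ← Finset.sum_sub_distrib, ← Finset.sum_add_distrib]
      apply Finset.sum_congr rfl
      intro k _
      push_cast
      ring
    rw [e, hBp, hCp, hone]
    ring
  have hF2 : ∀ i, ∑ k, ((C i k - 5 * B i k + one i k : ℤ) : ℝ) * p k
      = (x ^ 4 - 5 * x ^ 2 + 1) * p i := by
    intro i
    have e : ∑ k, ((C i k - 5 * B i k + one i k : ℤ) : ℝ) * p k
        = ∑ k, (C i k : ℝ) * p k - 5 * ∑ k, (B i k : ℝ) * p k + ∑ k, (one i k : ℝ) * p k := by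
      rw [Finset.mul_sum, ← Finset.sum_sub_distrib, ← Finset.sum_add_distrib]
      apply Finset.sum_congr rfl
      intro k _
      push_cast
      ring
    rw [e, hBp, hCp, hone]
    ring
  have hEp : ∀ i, 1593 * ∑ k, p k = (x ^ 4 - 7 * x ^ 2 + 9) * (x ^ 4 - 5 * x ^ 2 + 1) * p i := by
    intro i
    have := mul_eig (fun i l => C i l - 7 * B i l + 9 * one i l)
      (fun l k => C l k - 5 * B l k + one l k) (fun _ _ => 1593) hE p p p _ _ hF2 hF1 i
    rw [← this, Finset.mul_sum]
    norm_num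
  have hsum : (16 - x ^ 2) * ∑ k, p k = 0 := by
    have e : ∑ i, ∑ k, (B i k : ℝ) * p k = 16 * ∑ k, p k := by
      rw [Finset.sum_comm, Finset.mul_sum]
      apply Finset.sum_congr rfl
      intro k _
      rw [← Finset.sum_mul]
      congr 1
      rw [← Int.cast_sum, hrow]
      norm_num
    have e2 : ∑ i, ∑ k, (B i k : ℝ) * p k = x ^ 2 * ∑ k, p k := by
      rw [Finset.mul_sum]
      exact Finset.sum_congr rfl (fun i _ => hBp i)
    rw [sub_mul, ← e, e2]
    ring
  have hmu := mu_gt
  rcases mul_eq_zero.1 hsum with h3 | h3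
  · have h4 : (x - 4) * (x + 4) = 0 := by nlinarith
    rcases mul_eq_zero.1 h4 with h5 | h5
    · left
      linarith
    · right
      linarith
  · right
    by_cases hp0 : p = 0
    · have hq0 : q ≠ 0 := by
        intro hq0
        apply hv
        ext i
        have : ∀ i : Fin (17 + 17), v i = 0 := by
          intro i
          refine Fin.addCases (fun j => congrFun hp0 j) (fun j => congrFun hq0 j) i
        exact this i
      obtain ⟨l, hl⟩ : ∃ l, q l ≠ 0 := by
        by_contra hcon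
        push Not at hcon
        exact hq0 (funext hcon)
      have h5 := h2 l
      rw [hp0] at h5
      simp only [Pi.zero_apply, mul_zero, Finset.sum_const_zero] at h5
      rcases mul_eq_zero.1 h5.symm with h6 | h6
      · rw [h6]
        linarith
      · exact absurd h6 hl
    · obtain ⟨l, hl⟩ : ∃ l, p l ≠ 0 := by
        by_contra hcon
        push Not at hcon
        exact hp0 (funext hcon)
      have h5 := hEp l
      rw [h3, mul_zero] at h5
      have h6 : (x ^ 4 - 7 * x ^ 2 + 9) * (x ^ 4 - 5 * x ^ 2 + 1) = 0 := by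
        rcases mul_eq_zero.1 h5.symm with h7 | h7
        · exact h7
        · exact absurd h7 hl
      by_contra hx
      push Not at hx
      have hms := mu_sq
      have hy1 : 0 < x ^ 2 - x - 3 := by nlinarith
      have hy2 : 0 < x ^ 2 + x - 3 := by nlinarith
      rcases mul_eq_zero.1 h6 with h7 | h7
      · have : (x ^ 2 - x - 3) * (x ^ 2 + x - 3) = 0 := by
          rw [← h7]
          ring
        exact absurd this (mul_pos hy1 hy2).ne'
      · have hx2 : 5.29 < x ^ 2 := by nlinarith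
        nlinarith

lemma eigvec (i : Fin 34) : (∑ j, if a i j then ((α j : ℝ) * mu + β j) else 0)
    = mu * ((α i : ℝ) * mu + β i) := by
  have h1 := hα i
  have h2 := hβ i
  have e : (∑ j, if a i j then ((α j : ℝ) * mu + β j) else 0)
      = ((∑ j, if a i j then α j else 0 : ℤ) : ℝ) * mu + ((∑ j, if a i j then β j else 0 : ℤ) : ℝ) := by
    push_cast
    rw [Finset.sum_mul, ← Finset.sum_add_distrib]
    apply Finset.sum_congr rfl
    intro j _
    by_cases hc : a i j = true
    · rw [if_pos hc, if_pos hc, if_pos hc]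
    · rw [if_neg hc, if_neg hc, if_neg hc]
      simp
  rw [e, h1, h2]
  push_cast
  have := mu_sq
  linear_combination (-(α i : ℝ)) * this

lemma AC_eq : AC G = 4 - mu := by
  have hmu := mu_lt
  apply AC_of a hs hi (by norm_num) 4 hreg diam.1 (4 - mu) (by linarith) ?_
    (fun j => (α j : ℝ) * mu + β j) ?_ ?_
  · intro v x hv h
    rcases eig_bound v x hv h with h1 | h1
    · left
      rw [h1]
      norm_num
    · right
      push_cast
      linarith
  · intro h
    have := congrFun h 1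
    have e1 : α 1 = 0 := by decide +kernel
    have e2 : β 1 = 1 := by decide +kernel
    simp only [e1, e2, Pi.zero_apply] at this
    norm_num at this
  · intro i
    rw [eigvec]
    push_cast
    ring

/-- The solution `θ = arccos (μ / (2 √3))`. -/
noncomputable def th : ℝ := Real.arccos (mu / (2 * √3))

lemma sqrt3_sq : √(3 : ℝ) ^ 2 = 3 := Real.sq_sqrt (by norm_num)

lemma sqrt3_gt : (1.73 : ℝ) < √3 := by
  rw [Real.lt_sqrt (by norm_num)]
  norm_num

lemma sqrt3_lt : √3 < (1.7321 : ℝ) := by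
  rw [Real.sqrt_lt' (by norm_num)]
  norm_num

lemma ratio_bounds : 0 < mu / (2 * √3) ∧ mu / (2 * √3) < 1 := by
  have h1 := mu_gt
  have h2 := mu_lt
  have h3 := sqrt3_gt
  constructor
  · positivity
  · rw [div_lt_one (by positivity)]
    linarith

lemma cos_th : Real.cos th = mu / (2 * √3) :=
  Real.cos_arccos (by linarith [ratio_bounds.1]) ratio_bounds.2.le

lemma th_pos : 0 < th := Real.arccos_pos.2 ratio_bounds.2

lemma th_lt : th < Real.pi / 2 := Real.arccos_lt_pi_div_two.2 ratio_bounds.1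

/-- For `sin θ > 0` the equation is polynomial in `c = cos θ`. -/
lemma sol_iff (θ : ℝ) (hsin : 0 < Real.sin θ) (hc : 0 < Real.cos θ) :
    IsSol 4 5 θ ↔ (Real.cos (3 * θ) ≠ 0 ∧
      (2 * √3 * Real.cos θ) ^ 2 = 2 * √3 * Real.cos θ + 3) := by
  set c := Real.cos θ with hcdef
  set s := Real.sin θ with hsdef
  set r := √(3 : ℝ) with hr
  have hr2 : r ^ 2 = 3 := sqrt3_sq
  have hrpos : 0 < r := by positivity
  have hc1 : c ≤ 1 := Real.cos_le_one θ
  have hden : 0 < r * (4 - 2 * c ^ 2) + (4 - 2) * c := by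
    have : 0 < 4 - 2 * c ^ 2 := by nlinarith
    positivity
  have hcos3 : Real.cos (3 * θ) = 4 * c ^ 3 - 3 * c := Real.cos_three_mul θ
  have hsin3 : Real.sin (3 * θ) = s * (4 * c ^ 2 - 1) := by
    rw [Real.sin_three_mul]
    have : s ^ 2 = 1 - c ^ 2 := by
      have := Real.sin_sq_add_cos_sq θ
      rw [← hcdef, ← hsdef] at this
      linarith
    rw [← hsdef]
    linear_combination (-4 * s) * this
  have hK : (((5 + 1) / 2 : ℕ) : ℝ) = 3 := by norm_num
  have hd : ((4 : ℕ) : ℝ) - 1 = 3 := by norm_num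
  have hodd : Odd 5 := by decide
  have hnev : ¬ Even 5 := by decide
  unfold IsSol
  rw [hK, hd, ← hcdef, ← hsdef, ← hr]
  simp only [hodd, hnev, false_and, false_or, true_and]
  have key : Real.cos (3 * θ) ≠ 0 → (Real.tan (3 * θ) = -((2 * r * c + ((4 : ℕ) : ℝ)) * s) /
      (r * (((4 : ℕ) : ℝ) - 2 * c ^ 2) + (((4 : ℕ) : ℝ) - 2) * c) ↔
      (2 * r * c) ^ 2 = 2 * r * c + 3) := by
    intro h3
    have h3' : 4 * c ^ 3 - 3 * c ≠ 0 := by rwa [hcos3] at h3
    rw [Real.tan_eq_sin_div_cos, hsin3, hcos3]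
    push_cast
    rw [div_eq_div_iff h3' hden.ne']
    have e : s * (4 * c ^ 2 - 1) * (r * (4 - 2 * c ^ 2) + (4 - 2) * c)
        - -((2 * r * c + 4) * s) * (4 * c ^ 3 - 3 * c)
        = s / r * ((2 * r * c + 4) * ((2 * r * c) ^ 2 - 2 * r * c - 3)) * 1 := by
      have hr3 : r ^ 3 = 3 * r := by rw [pow_succ, hr2]
      have hr4 : r ^ 4 = 9 := by
        have : r ^ 4 = (r ^ 2) ^ 2 := by ring
        rw [this, hr2]
        norm_num
      field_simp
      ring_nf
      simp only [hr2, hr3]
      ring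
    constructor
    · intro h
      have h4 : s / r * ((2 * r * c + 4) * ((2 * r * c) ^ 2 - 2 * r * c - 3)) * 1 = 0 := by
        rw [← e, h]
        ring
      have h5 : s / r ≠ 0 := by positivity
      have h6 : 2 * r * c + 4 ≠ 0 := by positivity
      have h7 : (2 * r * c) ^ 2 - 2 * r * c - 3 = 0 := by
        rw [mul_one] at h4
        rcases mul_eq_zero.1 h4 with h8 | h8
        · exact absurd h8 h5
        · rcases mul_eq_zero.1 h8 with h9 | h9
          · exact absurd h9 h6
          · exact h9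
      linarith
    · intro h
      have h7 : (2 * r * c) ^ 2 - 2 * r * c - 3 = 0 := by linarith
      rw [h7] at e
      linarith
  constructor
  · rintro ⟨h1, -, h2⟩
    exact ⟨h1, (key h1).1 h2⟩
  · rintro ⟨h1, h2⟩
    refine ⟨h1, ?_, (key h1).2 h2⟩
    push_cast
    exact hden.ne'

lemma two_r_cos_th : 2 * √3 * Real.cos th = mu := by
  rw [cos_th]
  have : √(3 : ℝ) ≠ 0 := by positivity
  field_simp

lemma th_least : IsLeast {t : ℝ | 0 < t ∧ IsSol 4 5 t} th := by
  have hpi := Real.pi_pos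
  constructor
  · refine ⟨th_pos, ?_⟩
    rw [sol_iff th (Real.sin_pos_of_pos_of_lt_pi th_pos (by linarith [th_lt]))
      (Real.cos_pos_of_mem_Ioo ⟨by linarith [th_pos], th_lt⟩)]
    rw [two_r_cos_th]
    refine ⟨?_, mu_sq⟩
    rw [Real.cos_three_mul]
    have hc : Real.cos th = mu / (2 * √3) := cos_th
    have hc0 : 0 < Real.cos th := by rw [hc]; exact ratio_bounds.1
    have hc2 : Real.cos th ^ 2 = (mu + 3) / 12 := by
      rw [hc, div_pow, mul_pow, sqrt3_sq, mu_sq]
      norm_num
    have e : 4 * Real.cos th ^ 3 - 3 * Real.cos th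
        = Real.cos th * (4 * Real.cos th ^ 2 - 3) := by ring
    rw [e, hc2]
    apply mul_ne_zero hc0.ne'
    have := mu_lt
    intro h0
    linarith
  · rintro t ⟨ht0, ht⟩
    by_contra hlt
    push Not at hlt
    have ht2 : t < Real.pi / 2 := hlt.trans th_lt
    rw [sol_iff t (Real.sin_pos_of_pos_of_lt_pi ht0 (by linarith))
      (Real.cos_pos_of_mem_Ioo ⟨by linarith, ht2⟩)] at ht
    have hcos : Real.cos th < Real.cos t :=
      Real.cos_lt_cos_of_nonneg_of_le_pi_div_two ht0.le th_lt.le hlt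
    have h1 : mu < 2 * √3 * Real.cos t := by
      rw [← two_r_cos_th]
      have : 0 < √(3 : ℝ) := by positivity
      nlinarith
    have h2 := ht.2
    have h3 := mu_sq
    have h4 := mu_gt
    nlinarith

lemma girth_eq : G.girth = 4 := by
  have hadj : ∀ i j, G.Adj i j ↔ a i j = true := fun i j => Iff.rfl
  have e1 : G.Adj 1 17 := (hadj _ _).2 (by decide +kernel)
  have e2 : G.Adj 17 2 := (hadj _ _).2 (by decide +kernel)
  have e3 : G.Adj 2 25 := (hadj _ _).2 (by decide +kernel)
  have e4 : G.Adj 25 1 := (hadj _ _).2 (by decide +kernel)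
  let w : G.Walk 1 1 := SimpleGraph.Walk.cons e1 (SimpleGraph.Walk.cons e2
    (SimpleGraph.Walk.cons e3 (SimpleGraph.Walk.cons e4 SimpleGraph.Walk.nil)))
  have hw : w.IsCycle := by
    rw [SimpleGraph.Walk.cons_isCycle_iff]
    constructor
    · simp [SimpleGraph.Walk.cons_isPath_iff]
    · simp
  have hle : G.girth ≤ 4 := G.girth_le_length hw
  have hnac : ¬ G.IsAcyclic := fun h => h w hw
  have hge : 3 ≤ G.girth := G.three_le_girth hnac
  have hne : G.girth ≠ 3 := by
    intro h3
    obtain ⟨u, c, hc, hl⟩ := SimpleGraph.exists_girth_eq_length.2 hnac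
    have : ∃ s : Finset (Fin 34), G.IsNClique 3 s := by
      rw [SimpleGraph.is3Clique_iff_exists_cycle_length_three]
      exact ⟨u, c, hc, by rw [← hl, h3]⟩
    obtain ⟨s, hs3⟩ := this
    rw [SimpleGraph.is3Clique_iff] at hs3
    obtain ⟨x, y, z, hxy, hxz, hyz, -⟩ := hs3
    have hb : ∀ i j : Fin 34, a i j = true → ((i : ℕ) < 17 ↔ ¬ (j : ℕ) < 17) := by
      decide +kernel
    have b1 := hb x y hxy
    have b2 := hb x z hxz
    have b3 := hb y z hyz
    tauto
  omega

/-- There is a diameter-maximal 4-regular graph of (odd) diameter 5 whose girth is 4. -/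
theorem result : ∃ G : SimpleGraph (Fin 34), DiameterMaximal 4 5 G ∧ G.girth = 4 := by
  refine ⟨G, ⟨diam.1, ncard_of a hs hi 4 hreg, diam.2, th, th_least, ?_⟩, girth_eq⟩
  rw [AC_eq]
  have hd : ((4 : ℕ) : ℝ) - 1 = 3 := by norm_num
  rw [hd, two_r_cos_th]
  norm_num

end Pool.Agent.Results.MP_67c69b_co.OddGirthFour
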